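import Pool.Agent.Helper20.D4.RDefs

/-!
# Project D4, S_GV: Gauss valuations of `K(t 1, …, t p)`
-/

set_option autoImplicit false

namespace Pool.Agent.Helper17.D4

open Module Pool.Agent.Helper37.SD Pool.Agent.Helper20.TS Pool.Agent.Helper88.D4
  Pool.Agent.Helper20.D4

variable {K : Type} [Field K] [Algebra ℂ K] {p : ℕ}

/-- The weighted degree of a monomial. -/
noncomputable def wd (ρ : Fin p → ℝ) (m : Fin p →₀ ℕ) : ℝ := ∑ i, ρ i * (m i : ℝ)

theorem wd_add (ρ : Fin p → ℝ) (m n : Fin p →₀ ℕ) : wd ρ (m + n) = wd ρ m + wd ρ n := by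
  unfold wd
  rw [← Finset.sum_add_distrib]
  refine Finset.sum_congr rfl fun i _ => ?_
  rw [Finsupp.add_apply]
  push_cast
  ring

theorem wd_zero (ρ : Fin p → ℝ) : wd ρ 0 = 0 := by
  unfold wd
  simp

/-- All terms of `P` have at least the value `c`. -/
def PGe (w : RVal K) (ρ : Fin p → ℝ) (c : ℝ) (P : MvPolynomial (Fin p) K) : Prop :=
  ∀ m, w.Ge (c - wd ρ m) (P.coeff m)

/-- The least value of a term. -/
theorem exists_min (w : RVal K) (ρ : Fin p → ℝ) (P : MvPolynomial (Fin p) K) :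
    ∃ v : ℝ, P ≠ 0 → PGe w ρ v P ∧ ∃ m, P.coeff m ≠ 0 ∧ w.val (P.coeff m) + wd ρ m = v := by
  classical
  by_cases h : P = 0
  · exact ⟨0, fun h' => absurd h h'⟩
  · have hs : P.support.Nonempty := by
      rw [Finset.nonempty_iff_ne_empty]
      intro h'
      exact h (MvPolynomial.support_eq_empty.mp h')
    obtain ⟨m, hm, hmin⟩ := P.support.exists_min_image
      (fun m => w.val (P.coeff m) + wd ρ m) hs
    refine ⟨w.val (P.coeff m) + wd ρ m, fun _ => ⟨fun n => ?_, m,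
      MvPolynomial.mem_support_iff.mp hm, rfl⟩⟩
    by_cases hn : P.coeff n = 0
    · exact Or.inl hn
    · have := hmin n (MvPolynomial.mem_support_iff.mpr hn)
      exact Or.inr (by linarith)

/-- The Gauss valuation on polynomials. -/
noncomputable def GV (w : RVal K) (ρ : Fin p → ℝ) (P : MvPolynomial (Fin p) K) : ℝ :=
  (exists_min w ρ P).choose

theorem gv_pge (w : RVal K) (ρ : Fin p → ℝ) {P : MvPolynomial (Fin p) K} (h : P ≠ 0) :
    PGe w ρ (GV w ρ P) P := ((exists_min w ρ P).choose_spec h).1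

theorem gv_att (w : RVal K) (ρ : Fin p → ℝ) {P : MvPolynomial (Fin p) K} (h : P ≠ 0) :
    ∃ m, P.coeff m ≠ 0 ∧ w.val (P.coeff m) + wd ρ m = GV w ρ P :=
  ((exists_min w ρ P).choose_spec h).2

theorem pge_iff (w : RVal K) (ρ : Fin p → ℝ) {P : MvPolynomial (Fin p) K} (h : P ≠ 0) {c : ℝ} :
    c ≤ GV w ρ P ↔ PGe w ρ c P := by
  constructor
  · intro hc m
    exact w.ge_mono (by linarith) (gv_pge w ρ h m)
  · intro hc
    obtain ⟨m, hm, he⟩ := gv_att w ρ h
    have := (hc m).resolve_left hm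
    linarith

theorem pge_mul (w : RVal K) (ρ : Fin p → ℝ) {P Q : MvPolynomial (Fin p) K} {b c : ℝ}
    (hP : PGe w ρ b P) (hQ : PGe w ρ c Q) : PGe w ρ (b + c) (P * Q) := by
  classical
  intro m
  rw [MvPolynomial.coeff_mul]
  refine w.ge_sum _ _ fun x hx => ?_
  have h1 := w.ge_mul (hP x.1) (hQ x.2)
  have h2 : x.1 + x.2 = m := Finset.HasAntidiagonal.mem_antidiagonal.mp hx
  have h3 := wd_add ρ x.1 x.2
  rw [h2] at h3
  rw [h3]
  have e : b + c - (wd ρ x.1 + wd ρ x.2) = b - wd ρ x.1 + (c - wd ρ x.2) := by ring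
  rw [e]
  exact h1

theorem pge_add (w : RVal K) (ρ : Fin p → ℝ) {P Q : MvPolynomial (Fin p) K} {c : ℝ}
    (hP : PGe w ρ c P) (hQ : PGe w ρ c Q) : PGe w ρ c (P + Q) := by
  intro m
  rw [MvPolynomial.coeff_add]
  exact w.ge_add (hP m) (hQ m)

/-- The last among the terms of least value. -/
theorem exists_last (w : RVal K) (ρ : Fin p → ℝ) {P : MvPolynomial (Fin p) K} (h : P ≠ 0) :
    ∃ m, P.coeff m ≠ 0 ∧ w.val (P.coeff m) + wd ρ m = GV w ρ P ∧
      ∀ n, MonomialOrder.lex.toSyn m < MonomialOrder.lex.toSyn n →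
        w.Gt (GV w ρ P - wd ρ n) (P.coeff n) := by
  classical
  set T := P.support.filter (fun m => w.val (P.coeff m) + wd ρ m = GV w ρ P) with hT
  have hs : T.Nonempty := by
    obtain ⟨m, hm, he⟩ := gv_att w ρ h
    exact ⟨m, Finset.mem_filter.mpr ⟨MvPolynomial.mem_support_iff.mpr hm, he⟩⟩
  obtain ⟨m, hm, hmax⟩ := T.exists_max_image (fun m => MonomialOrder.lex.toSyn m) hs
  have hm' := Finset.mem_filter.mp hm
  refine ⟨m, MvPolynomial.mem_support_iff.mp hm'.1, hm'.2, fun n hn => ?_⟩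
  by_cases hn0 : P.coeff n = 0
  · exact Or.inl hn0
  · refine Or.inr ?_
    have h1 := (gv_pge w ρ h n).resolve_left hn0
    refine lt_of_le_of_ne h1 fun h2 => ?_
    have h3 : n ∈ T := Finset.mem_filter.mpr
      ⟨MvPolynomial.mem_support_iff.mpr hn0, by linarith⟩
    exact absurd hn (not_lt.mpr (hmax n h3))

theorem gt_mul_ge (w : RVal K) {b c : ℝ} {x y : K} (hx : w.Gt b x) (hy : w.Ge c y) :
    w.Gt (b + c) (x * y) := by
  by_cases h1 : x = 0
  · exact Or.inl (by rw [h1, zero_mul])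
  · by_cases h2 : y = 0
    · exact Or.inl (by rw [h2, mul_zero])
    · refine Or.inr ?_
      rw [w.map_mul x y h1 h2]
      exact add_lt_add_of_lt_of_le (hx.resolve_left h1) (hy.resolve_left h2)

theorem gt_sum (w : RVal K) {ι : Type} {c : ℝ} (s : Finset ι) (x : ι → K)
    (h : ∀ i ∈ s, w.Gt c (x i)) : w.Gt c (∑ i ∈ s, x i) := by
  classical
  induction s using Finset.induction_on with
  | empty => exact Or.inl rfl
  | insert a s ha ih =>
    rw [Finset.sum_insert ha]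
    exact w.gt_add (h a (Finset.mem_insert_self a s))
      (ih fun i hi => h i (Finset.mem_insert_of_mem hi))

theorem gv_mul (w : RVal K) (ρ : Fin p → ℝ) {P Q : MvPolynomial (Fin p) K} (hP : P ≠ 0)
    (hQ : Q ≠ 0) : GV w ρ (P * Q) = GV w ρ P + GV w ρ Q := by
  classical
  refine le_antisymm ?_ ((pge_iff w ρ (mul_ne_zero hP hQ)).mpr
    (pge_mul w ρ (gv_pge w ρ hP) (gv_pge w ρ hQ)))
  obtain ⟨a, ha0, ha, ha'⟩ := exists_last w ρ hP
  obtain ⟨b, hb0, hb, hb'⟩ := exists_last w ρ hQ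
  have hab : (a, b) ∈ Finset.HasAntidiagonal.antidiagonal (a + b) :=
    Finset.HasAntidiagonal.mem_antidiagonal.mpr rfl
  have hval : w.val (P.coeff a * Q.coeff b) = GV w ρ P + GV w ρ Q - wd ρ (a + b) := by
    rw [w.map_mul _ _ ha0 hb0, wd_add]
    linarith
  have hrest : w.Gt (w.val (P.coeff a * Q.coeff b))
      (∑ x ∈ (Finset.HasAntidiagonal.antidiagonal (a + b)).erase (a, b), P.coeff x.1 * Q.coeff x.2) := by
    refine gt_sum w _ _ fun x hx => ?_
    obtain ⟨hne, hx⟩ := Finset.mem_erase.mp hx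
    have hx' : x.1 + x.2 = a + b := Finset.HasAntidiagonal.mem_antidiagonal.mp hx
    have hw : wd ρ x.1 + wd ρ x.2 = wd ρ (a + b) := by rw [← wd_add, hx']
    rcases lt_trichotomy (MonomialOrder.lex.toSyn a) (MonomialOrder.lex.toSyn x.1) with h | h | h
    · have h1 := gt_mul_ge w (ha' _ h) (gv_pge w ρ hQ x.2)
      rw [hval]
      have e : GV w ρ P + GV w ρ Q - wd ρ (a + b) =
          GV w ρ P - wd ρ x.1 + (GV w ρ Q - wd ρ x.2) := by linarith
      rw [e]
      exact h1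
    · exfalso
      have h1 : a = x.1 := MonomialOrder.lex.toSyn.injective h
      have h2 : x.2 = b := by
        rw [← h1] at hx'
        exact add_left_cancel hx'
      exact hne (Prod.ext h1.symm h2)
    · have h5 : MonomialOrder.lex.toSyn b < MonomialOrder.lex.toSyn x.2 := by
        by_contra hcon
        have hcon := not_lt.mp hcon
        have h6 := add_lt_add_of_lt_of_le h hcon
        rw [← map_add, ← map_add, hx'] at h6
        exact lt_irrefl _ h6
      have h1 := gt_mul_ge w (hb' _ h5) (gv_pge w ρ hP x.1)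
      rw [hval]
      have e : GV w ρ P + GV w ρ Q - wd ρ (a + b) =
          GV w ρ Q - wd ρ x.2 + (GV w ρ P - wd ρ x.1) := by linarith
      rw [e, mul_comm]
      exact h1
  have hkey := w.val_add_eq (mul_ne_zero ha0 hb0) hrest
  have hco : (P * Q).coeff (a + b) = P.coeff a * Q.coeff b +
      ∑ x ∈ (Finset.HasAntidiagonal.antidiagonal (a + b)).erase (a, b), P.coeff x.1 * Q.coeff x.2 := by
    rw [MvPolynomial.coeff_mul]
    exact (Finset.add_sum_erase _ _ hab).symm
  rw [← hco] at hkey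
  have h1 := (gv_pge w ρ (mul_ne_zero hP hQ) (a + b)).resolve_left hkey.1
  rw [hkey.2, hval] at h1
  linarith

theorem gv_add (w : RVal K) (ρ : Fin p → ℝ) {P Q : MvPolynomial (Fin p) K} (hP : P ≠ 0)
    (hQ : Q ≠ 0) (hPQ : P + Q ≠ 0) : min (GV w ρ P) (GV w ρ Q) ≤ GV w ρ (P + Q) := by
  rw [pge_iff w ρ hPQ]
  refine pge_add w ρ ?_ ?_
  · exact (pge_iff w ρ hP).mp (min_le_left _ _)
  · exact (pge_iff w ρ hQ).mp (min_le_right _ _)

theorem gv_monomial (w : RVal K) (ρ : Fin p → ℝ) (m : Fin p →₀ ℕ) {x : K} (hx : x ≠ 0) :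
    GV w ρ (MvPolynomial.monomial m x) = w.val x + wd ρ m := by
  classical
  have h0 : MvPolynomial.monomial m x ≠ 0 := by
    intro h
    exact hx (MvPolynomial.monomial_eq_zero.mp h)
  obtain ⟨n, hn, he⟩ := gv_att w ρ h0
  rw [MvPolynomial.coeff_monomial] at hn he
  by_cases hmn : m = n
  · rw [if_pos hmn] at he
    rw [← he, hmn]
  · rw [if_neg hmn] at hn
    exact absurd rfl hn

section Ext

variable {K' : Type} [Field K'] [Algebra ℂ K'] [Algebra K K'] {t : Fin p → K'}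

theorem Ext.inj (hE : Ext K t) :
    Function.Injective (MvPolynomial.aeval t : MvPolynomial (Fin p) K →ₐ[K] K') := hE.ind

theorem Ext.ae_ne (hE : Ext K t) {P : MvPolynomial (Fin p) K} :
    MvPolynomial.aeval t P ≠ 0 ↔ P ≠ 0 := by
  rw [Ne, map_eq_zero_iff _ (Ext.inj hE)]

theorem Ext.tt_ne (hE : Ext K t) (i : Fin p) : t i ≠ 0 := by
  have h := (Ext.ae_ne hE (P := MvPolynomial.X i)).mpr (MvPolynomial.X_ne_zero i)
  rwa [MvPolynomial.aeval_X] at h

theorem Ext.mon_ne (hE : Ext K t) (n : Fin p → ℤ) : mon t n ≠ 0 :=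
  Finset.prod_ne_zero_iff.mpr fun i _ => zpow_ne_zero _ (Ext.tt_ne hE i)

theorem Ext.mon_mul (hE : Ext K t) (m n : Fin p → ℤ) : mon t (m + n) = mon t m * mon t n := by
  unfold mon
  rw [← Finset.prod_mul_distrib]
  exact Finset.prod_congr rfl fun i _ => zpow_add₀ (Ext.tt_ne hE i) _ _

/-- The polynomials as a subalgebra of `K(t)`. -/
noncomputable def Pol (hE : Ext K t) : Subalgebra ℂ K' where
  carrier := {z | ∃ P : MvPolynomial (Fin p) K, MvPolynomial.aeval t P = z}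
  add_mem' := by
    rintro _ _ ⟨P, rfl⟩ ⟨Q, rfl⟩
    exact ⟨P + Q, map_add _ _ _⟩
  mul_mem' := by
    rintro _ _ ⟨P, rfl⟩ ⟨Q, rfl⟩
    exact ⟨P * Q, map_mul _ _ _⟩
  algebraMap_mem' := fun z =>
    ⟨MvPolynomial.C (algebraMap ℂ K z), by rw [MvPolynomial.aeval_C, hE.tower]⟩

theorem mem_pol {hE : Ext K t} {z : K'} : z ∈ Pol hE ↔
    ∃ P : MvPolynomial (Fin p) K, MvPolynomial.aeval t P = z := Iff.rfl

theorem isFrac_pol (hE : Ext K t) : IsFrac (Pol hE) := by
  intro z
  obtain ⟨P, Q, hQ, h⟩ := hE.frac z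
  refine ⟨_, ⟨P, rfl⟩, _, ⟨Q, rfl⟩, (Ext.ae_ne hE).mpr hQ, ?_⟩
  rw [eq_div_iff ((Ext.ae_ne hE).mpr hQ), h]

/-- The valuation of `K(t)` with `w' P = GV P` for polynomials `P`. -/
theorem exists_gauss_pol (hE : Ext K t) (w : RVal K) (ρ : Fin p → ℝ) : ∃ w' : RVal K',
    ∀ P : MvPolynomial (Fin p) K, P ≠ 0 → w'.val (MvPolynomial.aeval t P) = GV w ρ P := by
  classical
  set V : K' → ℝ := fun z => if h : ∃ P : MvPolynomial (Fin p) K,
    MvPolynomial.aeval t P = z then GV w ρ h.choose else 0 with hV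
  have hVP : ∀ P : MvPolynomial (Fin p) K, V (MvPolynomial.aeval t P) = GV w ρ P := by
    intro P
    have h : ∃ Q : MvPolynomial (Fin p) K, MvPolynomial.aeval t Q =
        MvPolynomial.aeval t P := ⟨P, rfl⟩
    rw [hV]
    simp only
    rw [dif_pos h, Ext.inj hE h.choose_spec]
  obtain ⟨w', hw'⟩ := exists_extend (R := Pol hE) (isFrac_pol hE) V (by
    rintro _ ⟨P, rfl⟩ _ ⟨Q, rfl⟩ hP hQ
    rw [← map_mul, hVP, hVP, hVP]
    exact gv_mul w ρ ((Ext.ae_ne hE).mp hP) ((Ext.ae_ne hE).mp hQ)) (by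
    rintro _ ⟨P, rfl⟩ _ ⟨Q, rfl⟩ hP hQ hPQ
    rw [← map_add] at hPQ ⊢
    rw [hVP, hVP, hVP]
    exact gv_add w ρ ((Ext.ae_ne hE).mp hP) ((Ext.ae_ne hE).mp hQ) ((Ext.ae_ne hE).mp hPQ)) (by
    intro z hz
    have e : algebraMap ℂ K' z = MvPolynomial.aeval t
        (MvPolynomial.monomial 0 (algebraMap ℂ K z)) := by
      rw [hE.tower]
      exact (MvPolynomial.aeval_C t (algebraMap ℂ K z)).symm
    rw [e, hVP, gv_monomial w ρ _ ((map_ne_zero _).mpr hz), w.map_const z hz, wd_zero, add_zero])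
  refine ⟨w', fun P hP => ?_⟩
  rw [hw' _ (mem_pol.mpr ⟨P, rfl⟩) ((Ext.ae_ne hE).mpr hP), hVP]

/-- Nonnegative exponents. -/
noncomputable def fs (n : Fin p → ℤ) : Fin p →₀ ℕ :=
  Finsupp.equivFunOnFinite.symm fun i => (n i).toNat

theorem fs_apply (n : Fin p → ℤ) (i : Fin p) : fs n i = (n i).toNat := rfl

theorem sec_eq_monomial {n : Fin p → ℤ} (hn : ∀ i, 0 ≤ n i) (x : K) :
    algebraMap K K' x * mon t n =
      MvPolynomial.aeval t (MvPolynomial.monomial (fs n) x) := by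
  rw [MvPolynomial.aeval_monomial]
  unfold mon
  congr 1
  rw [Finsupp.prod_fintype _ _ (fun i => pow_zero _)]
  refine Finset.prod_congr rfl fun i _ => ?_
  rw [fs_apply, ← zpow_natCast, Int.toNat_of_nonneg (hn i)]

/-- A common shift which makes the exponents nonnegative. -/
theorem exists_shift (S : Finset (Fin p → ℤ)) : ∃ N : Fin p → ℤ, (∀ i, 0 ≤ N i) ∧
    ∀ n ∈ S, ∀ i, 0 ≤ (n + N) i := by
  refine ⟨fun i => ∑ n ∈ S, |n i|, fun i => Finset.sum_nonneg fun n _ => abs_nonneg _,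
    fun n hn i => ?_⟩
  have h1 : |n i| ≤ ∑ n ∈ S, |n i| :=
    Finset.single_le_sum (f := fun n : Fin p → ℤ => |n i|) (fun n _ => abs_nonneg _) hn
  rw [Pi.add_apply]
  have h2 := neg_abs_le (n i)
  linarith

theorem sum_shift (hE : Ext K t) (f : (Fin p → ℤ) →₀ K) {N : Fin p → ℤ}
    (hN : ∀ n ∈ f.support, ∀ i, 0 ≤ (n + N) i) : lau t f * mon t N =
      MvPolynomial.aeval t
        (∑ n ∈ f.support, MvPolynomial.monomial (fs (n + N)) (f n)) := by
  unfold lau
  rw [Finsupp.sum, map_sum, Finset.sum_mul]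
  refine Finset.sum_congr rfl fun n hn => ?_
  rw [← sec_eq_monomial (hN n hn), Ext.mon_mul hE, mul_assoc]

theorem fs_inj {m n N : Fin p → ℤ} (hm : ∀ i, 0 ≤ (m + N) i) (hn : ∀ i, 0 ≤ (n + N) i)
    (h : fs (m + N) = fs (n + N)) : m = n := by
  funext i
  have h1 := DFunLike.congr_fun h i
  rw [fs_apply, fs_apply] at h1
  have h2 := hm i
  have h3 := hn i
  have h4 : (m + N) i = (n + N) i := by
    rw [← Int.toNat_of_nonneg h2, ← Int.toNat_of_nonneg h3, h1]
  rw [Pi.add_apply, Pi.add_apply] at h4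
  linarith

theorem coeff_shift (S : Finset (Fin p → ℤ)) (x : (Fin p → ℤ) → K) {N : Fin p → ℤ}
    (hN : ∀ n ∈ S, ∀ i, 0 ≤ (n + N) i) {n : Fin p → ℤ} (hn : n ∈ S) :
    (∑ n ∈ S, MvPolynomial.monomial (fs (n + N)) (x n)).coeff (fs (n + N)) = x n := by
  classical
  rw [MvPolynomial.coeff_sum, Finset.sum_eq_single n]
  · rw [MvPolynomial.coeff_monomial, if_pos rfl]
  · intro m hm hmn
    rw [MvPolynomial.coeff_monomial, if_neg]
    intro h
    exact hmn (fs_inj (hN m hm) (hN n hn) h)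
  · intro h
    exact absurd hn h

/-- The monomials are linearly independent over `K`. -/
theorem lau_eq_zero (hE : Ext K t) {f : (Fin p → ℤ) →₀ K} (h : lau t f = 0) : f = 0 := by
  obtain ⟨N, hN0, hN⟩ := exists_shift f.support
  have h1 := sum_shift hE f hN
  rw [h, zero_mul] at h1
  have h2 := (map_eq_zero_iff _ (Ext.inj hE)).mp h1.symm
  by_contra hf
  obtain ⟨n, hn⟩ := Finsupp.support_nonempty_iff.mpr hf
  apply Finsupp.mem_support_iff.mp hn
  rw [← coeff_shift f.support f hN hn, h2, MvPolynomial.coeff_zero]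

theorem wd_fs (ρ : Fin p → ℝ) {n : Fin p → ℤ} (hn : ∀ i, 0 ≤ n i) :
    wd ρ (fs n) = ∑ i, (n i : ℝ) * ρ i := by
  unfold wd
  refine Finset.sum_congr rfl fun i _ => ?_
  rw [fs_apply, mul_comm]
  have h1 : ((n i).toNat : ℤ) = n i := Int.toNat_of_nonneg (hn i)
  have h2 : (((n i).toNat : ℤ) : ℝ) = (n i : ℝ) := by rw [h1]
  rw [← h2]
  push_cast
  rfl

end Ext

/-- R2: Gauss valuations exist. -/
theorem s_GV : S_GV := by
  intro K K' _ _ _ _ _ p t hE w ρ
  classical
  obtain ⟨w', hw'⟩ := exists_gauss_pol hE w ρ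
  refine ⟨w', fun f c => ?_⟩
  obtain ⟨N, hN0, hN⟩ := exists_shift f.support
  set P : MvPolynomial (Fin p) K :=
    ∑ n ∈ f.support, MvPolynomial.monomial (fs (n + N)) (f n) with hP
  have h1 := sum_shift hE f hN
  rw [← hP] at h1
  have hmon : w'.val (mon t N) = ∑ i, (N i : ℝ) * ρ i := by
    have e : mon t N = algebraMap K K' 1 * mon t N := by
      rw [map_one, one_mul]
    rw [e, sec_eq_monomial hN0, hw' _ (fun h => one_ne_zero (MvPolynomial.monomial_eq_zero.mp h)),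
      gv_monomial w ρ _ one_ne_zero, w.val_one, zero_add, wd_fs ρ hN0]
  have hwn : ∀ n ∈ f.support, wd ρ (fs (n + N)) =
      ∑ i, (n i : ℝ) * ρ i + ∑ i, (N i : ℝ) * ρ i := by
    intro n hn
    rw [wd_fs ρ (hN n hn), ← Finset.sum_add_distrib]
    refine Finset.sum_congr rfl fun i _ => ?_
    rw [Pi.add_apply]
    push_cast
    ring
  by_cases hP0 : P = 0
  · have hz : lau t f = 0 := by
      rw [hP0, map_zero] at h1
      exact (mul_eq_zero.mp h1).resolve_right (Ext.mon_ne hE N)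
    constructor
    · intro _ n
      rw [lau_eq_zero hE hz]
      exact Or.inl rfl
    · intro _
      exact Or.inl hz
  · have hz : lau t f ≠ 0 := by
      intro h
      rw [h, zero_mul] at h1
      exact hP0 ((map_eq_zero_iff _ (Ext.inj hE)).mp h1.symm)
    have h2 : w'.val (lau t f) + ∑ i, (N i : ℝ) * ρ i = GV w ρ P := by
      rw [← hw' P hP0, ← h1, w'.map_mul _ _ hz (Ext.mon_ne hE N), hmon]
    have h3 : w'.Ge c (lau t f) ↔ PGe w ρ (c + ∑ i, (N i : ℝ) * ρ i) P := by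
      rw [← pge_iff w ρ hP0, ← h2]
      constructor
      · intro h
        have := h.resolve_left hz
        linarith
      · intro h
        exact Or.inr (by linarith)
    rw [h3]
    constructor
    · intro h n
      by_cases hn : n ∈ f.support
      · have h4 := h (fs (n + N))
        rw [hP, coeff_shift f.support f hN hn, hwn n hn] at h4
        exact w.ge_mono (by linarith) h4
      · exact Or.inl (Finsupp.notMem_support_iff.mp hn)
    · intro h m
      rw [hP, MvPolynomial.coeff_sum]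
      refine w.ge_sum _ _ fun n hn => ?_
      rw [MvPolynomial.coeff_monomial]
      split_ifs with hm
      · rw [← hm, hwn n hn]
        exact w.ge_mono (by linarith) (h n)
      · exact Or.inl rfl

end Pool.Agent.Helper17.D4
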