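import Pool.Agent.Helper20.D4.Lau
import Pool.Agent.Helper34.D4.Tr
import Pool.Agent.Helper11.D4.EX1
import Pool.Agent.Helper75.D4.Gor

/-!
# Project D4, S_POS: a grading of the Cox algebra with positive degrees
-/

set_option autoImplicit false

namespace Pool.Agent.Helper17.D4

open Module Pool.Agent.Helper37.SD Pool.Agent.Helper20.TS Pool.Agent.Helper88.D4
  Pool.Agent.Helper20.D4 Pool.Agent.Helper34.D4

variable {K : Type} [Field K] [Algebra ℂ K] {R : Subalgebra ℂ K} {p : ℕ} {u : Fin p → RVal K}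

/-- the degree `0` part is `R` -/
theorem mem_of_sd_zero (hf : IsFrac R) (hfg : R.FG) (hn : Normal R) {x : K}
    (hx : x ∈ Sd R u 0) : x ∈ R := by
  by_contra h
  obtain ⟨w, hw, hneg⟩ := Pool.Agent.Helper11.D4.s_EX1 K R hf hfg hn x h
  have hx0 : x ≠ 0 := by
    rintro rfl
    exact h R.zero_mem
  by_cases hd : ∀ i, Dist w (u i)
  · have := (hx.2 w hw hd).resolve_left hx0
    linarith
  · push Not at hd
    obtain ⟨i, hi⟩ := hd
    have h1 := (hx.1 i).resolve_left hx0
    have h2 : w.val x = (u i).val x := by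
      by_contra h3
      exact hi ⟨x, hx0, h3⟩
    rw [Pi.zero_apply] at h1
    rw [h2] at hneg
    push_cast at h1
    linarith

theorem sd_pow {n : Fin p → ℤ} {x : K} (hx : x ∈ Sd R u n) (k : ℕ) :
    x ^ k ∈ Sd R u ((k : ℤ) • n) := by
  induction k with
  | zero =>
    have h := Sd_const (R := R) (u := u) 1
    rw [map_one] at h
    simpa using h
  | succ k ih =>
    have h := Sd_mul ih hx
    have e : ((k : ℤ) • n + n) = (((k + 1 : ℕ) : ℤ) • n) := by
      push_cast
      rw [add_smul, one_smul]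
    rw [← e, pow_succ]
    exact h

theorem sd_prod {ι : Type} (s : Finset ι) (x : ι → K) (n : ι → Fin p → ℤ)
    (h : ∀ l ∈ s, x l ∈ Sd R u (n l)) : ∏ l ∈ s, x l ∈ Sd R u (∑ l ∈ s, n l) := by
  classical
  induction s using Finset.induction_on with
  | empty =>
    have h := Sd_const (R := R) (u := u) 1
    rw [map_one] at h
    simpa using h
  | insert a s ha ih =>
    rw [Finset.prod_insert ha, Finset.sum_insert ha]
    exact Sd_mul (h a (Finset.mem_insert_self a s))
      (ih fun l hl => h l (Finset.mem_insert_of_mem hl))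

section W

variable {r : ℕ} {H : Fin r → Derivation ℂ K K}

theorem isW_one : IsW H 0 (1 : K) := by
  intro i
  rw [Derivation.map_one_eq_zero]
  simp

theorem isW_mul {m n : Fin r → ℤ} {x y : K} (hx : IsW H m x) (hy : IsW H n y) :
    IsW H (m + n) (x * y) := by
  intro i
  rw [Derivation.leibniz, hx i, hy i, Pi.add_apply, smul_eq_mul, smul_eq_mul, Int.cast_add]
  simp only [Algebra.smul_def, map_add]
  ring

theorem isW_pow {m : Fin r → ℤ} {x : K} (hx : IsW H m x) (k : ℕ) :
    IsW H ((k : ℤ) • m) (x ^ k) := by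
  induction k with
  | zero =>
    have h := isW_one (H := H)
    simpa using h
  | succ k ih =>
    have h := isW_mul ih hx
    have e : ((k : ℤ) • m + m) = (((k + 1 : ℕ) : ℤ) • m) := by
      push_cast
      rw [add_smul, one_smul]
    rw [← e, pow_succ]
    exact h

theorem isW_prod {ι : Type} (s : Finset ι) (x : ι → K) (m : ι → Fin r → ℤ)
    (h : ∀ l ∈ s, IsW H (m l) (x l)) : IsW H (∑ l ∈ s, m l) (∏ l ∈ s, x l) := by
  classical
  induction s using Finset.induction_on with
  | empty =>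
    have h := isW_one (H := H)
    simpa using h
  | insert a s ha ih =>
    rw [Finset.prod_insert ha, Finset.sum_insert ha]
    exact isW_mul (h a (Finset.mem_insert_self a s))
      (ih fun l hl => h l (Finset.mem_insert_of_mem hl))

theorem isW_inv {m : Fin r → ℤ} {x : K} (hx0 : x ≠ 0) (hx : IsW H m x) :
    IsW H (-m) x⁻¹ := by
  intro i
  have h1 : H i (x * x⁻¹) = 0 := by
    rw [mul_inv_cancel₀ hx0, Derivation.map_one_eq_zero]
  rw [Derivation.leibniz, hx i, smul_eq_mul, smul_eq_mul, Algebra.smul_def] at h1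
  rw [Algebra.smul_def, Pi.neg_apply, Int.cast_neg, map_neg]
  have h2 : x⁻¹ * (algebraMap ℂ K ((m i : ℤ) : ℂ) * x) = algebraMap ℂ K ((m i : ℤ) : ℂ) := by
    field_simp
  rw [h2] at h1
  have h3 : x * (H i) x⁻¹ = -algebraMap ℂ K ((m i : ℤ) : ℂ) := by linear_combination h1
  have h4 : (H i) x⁻¹ = x⁻¹ * (x * (H i) x⁻¹) := by
    rw [← mul_assoc, inv_mul_cancel₀ hx0, one_mul]
  rw [h4, h3]
  ring

end W

theorem s_POS_of (hG : S_GOR) : S_POS := by
  intro K _ _ R ξ r H c hR hn hT p u hu hd hunit T m hTm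
  classical
  set N := T.card with hN
  obtain ⟨g, hgT, hgs⟩ : ∃ g : Fin N → K × (Fin p → ℤ), (∀ l, g l ∈ T) ∧
      ∀ x ∈ T, ∃ l, g l = x := by
    refine ⟨fun l => (T.equivFin.symm l : K × (Fin p → ℤ)), fun l => (T.equivFin.symm l).2,
      fun x hx => ⟨T.equivFin ⟨x, hx⟩, ?_⟩⟩
    simp only
    rw [Equiv.symm_apply_apply]
  have key : ∀ a : Fin N → ℕ,
      (∀ i, ∑ l, (a l : ℤ) * (Fin.append (m (g l).1) (g l).2 : Fin (r + p) → ℤ) i = 0) →
        ∀ l, a l = 0 := by
    intro a ha l₀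
    by_contra hl₀
    have ha1 : ∀ j : Fin r, ∑ l, (a l : ℤ) * m (g l).1 j = 0 := by
      intro j
      have := ha (Fin.castAdd p j)
      simpa [Fin.append_left] using this
    have ha2 : ∀ i : Fin p, ∑ l, (a l : ℤ) * (g l).2 i = 0 := by
      intro i
      have := ha (Fin.natAdd r i)
      simpa [Fin.append_right] using this
    have hPS := sd_prod (R := R) (u := u) Finset.univ (fun l => (g l).1 ^ a l)
      (fun l => (a l : ℤ) • (g l).2) (fun l _ => sd_pow (hTm _ (hgT l)).1 (a l))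
    have hPW := isW_prod (H := H) Finset.univ (fun l => (g l).1 ^ a l)
      (fun l => (a l : ℤ) • m (g l).1) (fun l _ => isW_pow (hTm _ (hgT l)).2.2.1 (a l))
    have e1 : ∑ l, (a l : ℤ) • (g l).2 = 0 := by
      funext i
      rw [Finset.sum_apply, Pi.zero_apply, ← ha2 i]
      rfl
    have e2 : ∑ l, (a l : ℤ) • m (g l).1 = 0 := by
      funext j
      rw [Finset.sum_apply, Pi.zero_apply, ← ha1 j]
      rfl
    rw [e1] at hPS
    rw [e2] at hPW
    set P : K := ∏ l, (g l).1 ^ a l with hP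
    have hP0 : P ≠ 0 := Finset.prod_ne_zero_iff.mpr fun l _ => pow_ne_zero _ (hTm _ (hgT l)).2.1
    have hPR : P ∈ R := mem_of_sd_zero hR.frac hR.fg hn hPS
    have hPξ : ξ P = 0 := by
      rw [xi_isW hT hPW]
      simp
    obtain ⟨z, hz⟩ := hR.const P hPR hPξ
    have hz0 : z ≠ 0 := by
      rintro rfl
      exact hP0 (by rw [hz, map_zero])
    -- the inverse of `g l₀`
    set x : K := (g l₀).1 with hx
    set n : Fin p → ℤ := (g l₀).2 with hnn
    have hx0 : x ≠ 0 := (hTm _ (hgT l₀)).2.1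
    have hxS : x ∈ Sd R u n := (hTm _ (hgT l₀)).1
    set Q : K := x ^ (a l₀ - 1) * ∏ l ∈ Finset.univ.erase l₀, (g l).1 ^ a l with hQ
    have hQP : x * Q = P := by
      rw [hQ, hP, ← Finset.mul_prod_erase Finset.univ _ (Finset.mem_univ l₀), ← mul_assoc,
        ← pow_succ', Nat.sub_add_cancel (Nat.pos_of_ne_zero hl₀)]
    have hQS : Q ∈ Sd R u (-n) := by
      have h1 := Sd_mul (sd_pow hxS (a l₀ - 1)) (sd_prod (R := R) (u := u)
        (Finset.univ.erase l₀) (fun l => (g l).1 ^ a l)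
        (fun l => (a l : ℤ) • (g l).2) (fun l _ => sd_pow (hTm _ (hgT l)).1 (a l)))
      have e3 : (((a l₀ - 1 : ℕ) : ℤ) • n + ∑ l ∈ Finset.univ.erase l₀, (a l : ℤ) • (g l).2) =
          -n := by
        have h2 := Finset.add_sum_erase Finset.univ (fun l => (a l : ℤ) • (g l).2)
          (Finset.mem_univ l₀)
        rw [e1] at h2
        have h3 : ((a l₀ - 1 : ℕ) : ℤ) = (a l₀ : ℤ) - 1 := by
          have := Nat.pos_of_ne_zero hl₀
          omega
        rw [h3, sub_smul, one_smul]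
        have h4 : (a l₀ : ℤ) • n = (fun l => (a l : ℤ) • (g l).2) l₀ := rfl
        rw [h4]
        have h5 : ∑ l ∈ Finset.univ.erase l₀, (a l : ℤ) • (g l).2 =
          -((fun l => (a l : ℤ) • (g l).2) l₀) := by
          rw [eq_neg_iff_add_eq_zero, add_comm]
          exact h2
        rw [h5]
        abel
      rw [e3] at h1
      exact h1
    have hQ0 : Q ≠ 0 := by
      intro h
      rw [h, mul_zero] at hQP
      exact hP0 hQP.symm
    have hinv : x⁻¹ = z⁻¹ • Q := by
      rw [Algebra.smul_def, map_inv₀, ← hz, ← hQP, mul_inv, mul_assoc, inv_mul_cancel₀ hQ0,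
        mul_one]
    have hxi : x⁻¹ ∈ Sd R u (-n) := by
      rw [hinv]
      exact Submodule.smul_mem _ _ hQS
    have hn0 : n = 0 := hunit x n hx0 hxS hxi
    rw [hn0] at hxS hxi
    rw [neg_zero] at hxi
    have hxR : x ∈ R := mem_of_sd_zero hR.frac hR.fg hn hxS
    have hxiR : x⁻¹ ∈ R := mem_of_sd_zero hR.frac hR.fg hn hxi
    have hW := (hTm _ (hgT l₀)).2.2.1
    have h1 := xi_isW hT hW
    have h2 := xi_isW hT (isW_inv hx0 hW)
    have h3 := hR.eig_nonneg hxR hx0 h1
    have h4 := hR.eig_nonneg hxiR (inv_ne_zero hx0) h2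
    have h5 : ∑ i, c i * (((-m (g l₀).1) i : ℤ) : ℝ) = -∑ i, c i * ((m (g l₀).1 i : ℤ) : ℝ) := by
      rw [← Finset.sum_neg_distrib]
      refine Finset.sum_congr rfl fun i _ => ?_
      rw [Pi.neg_apply]
      push_cast
      ring
    rw [h5] at h4
    have h6 : ∑ i, c i * ((m (g l₀).1 i : ℤ) : ℝ) = 0 := le_antisymm (by linarith) h3
    rw [h6, Complex.ofReal_zero, zero_smul] at h1
    exact (hTm _ (hgT l₀)).2.2.2 hn0 (hR.const _ hxR h1)
  obtain ⟨t, ht⟩ := hG N (r + p) (fun l => Fin.append (m (g l).1) (g l).2) key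
  refine ⟨fun j => t (Fin.castAdd p j), fun i => t (Fin.natAdd r i), fun x hx => ?_⟩
  obtain ⟨l, hl⟩ := hgs x hx
  have h1 := ht l
  rw [Fin.sum_univ_add] at h1
  simp only [Fin.append_left, Fin.append_right] at h1
  rw [hl] at h1
  exact h1

/-- R5: a grading with positive degrees -/
theorem s_POS : S_POS := s_POS_of Pool.Agent.Helper75.D4.s_GOR

end Pool.Agent.Helper17.D4
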